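import Mathlib.Analysis.InnerProductSpace.PiL2
import Mathlib.Combinatorics.SimpleGraph.Acyclic

set_option autoImplicit false

namespace Pool.Agent.MP_64e20d_co

/-- The Euclidean plane. -/
abbrev Plane : Type := EuclideanSpace ℝ (Fin 2)

/-- A finite tree drawn in the plane with straight-line edges: distinct vertices have distinct
positions, and two different edges meet only in a common end vertex. -/
structure EmbeddedTree where
  /-- the number of vertices -/
  n : ℕ
  /-- the abstract tree -/
  graph : SimpleGraph (Fin n)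
  isTree : graph.IsTree
  /-- the positions of the vertices -/
  pos : Fin n → Plane
  pos_injective : Function.Injective pos
  noncrossing : ∀ a b c d : Fin n, graph.Adj a b → graph.Adj c d → s(a, b) ≠ s(c, d) →
    ∀ p : Plane, p ∈ segment ℝ (pos a) (pos b) → p ∈ segment ℝ (pos c) (pos d) →
      ∃ v : Fin n, (v = a ∨ v = b) ∧ (v = c ∨ v = d) ∧ p = pos v

/-- The points of the embedded tree: its vertices and all points of its edges. -/
def EmbeddedTree.points (T : EmbeddedTree) : Set Plane :=
  Set.range T.pos ∪ {p | ∃ a b : Fin T.n, T.graph.Adj a b ∧ p ∈ segment ℝ (T.pos a) (T.pos b)}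

/-- `T.Route p q L`: there is a polygonal route from `p` to `q` of Euclidean length `L` each of
whose straight steps runs inside one edge of the tree. -/
inductive EmbeddedTree.Route (T : EmbeddedTree) : Plane → Plane → ℝ → Prop
  | stay (p : Plane) : EmbeddedTree.Route T p p 0
  | step {p q r : Plane} {L : ℝ} (a b : Fin T.n) : T.graph.Adj a b →
      p ∈ segment ℝ (T.pos a) (T.pos b) → q ∈ segment ℝ (T.pos a) (T.pos b) →
      EmbeddedTree.Route T q r L → EmbeddedTree.Route T p r (dist p q + L)

/-- The metric of length along the tree. -/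
noncomputable def EmbeddedTree.d (T : EmbeddedTree) (p q : Plane) : ℝ :=
  sInf {L : ℝ | T.Route p q L}

/-- The neighborhood subtree with center `c` and radius `r`. -/
def EmbeddedTree.nbhd (T : EmbeddedTree) (c : Plane) (r : ℝ) : Set Plane :=
  {p | p ∈ T.points ∧ T.d c p ≤ r}

/-- The diameter of a set of points for the metric along the tree. -/
noncomputable def EmbeddedTree.diam (T : EmbeddedTree) (S : Set Plane) : ℝ :=
  sSup {L : ℝ | ∃ p ∈ S, ∃ q ∈ S, L = T.d p q}

/-- NeST graphs, sizes read by the convention that a neighborhood subtree of radius `r` has size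
`2 r`: the intersection of two meeting neighborhood subtrees then has size
`min (2 r x, 2 r y, r x + r y - d (c x, c y))`. -/
def IsNeST {V : Type} (G : SimpleGraph V) : Prop :=
  ∃ (T : EmbeddedTree) (c : V → Plane) (r t : V → ℝ),
    (∀ v, c v ∈ T.points ∧ 0 < r v ∧ 0 < t v) ∧
    ∀ x y, x ≠ y → (G.Adj x y ↔
      (T.nbhd (c x) (r x) ∩ T.nbhd (c y) (r y)).Nonempty ∧
        min (t x) (t y) ≤ min (min (2 * r x) (2 * r y)) (r x + r y - T.d (c x) (c y)))

/-- NeST graphs, sizes read as actual diameters in the tree. -/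
def IsNeSTDiam {V : Type} (G : SimpleGraph V) : Prop :=
  ∃ (T : EmbeddedTree) (c : V → Plane) (r t : V → ℝ),
    (∀ v, c v ∈ T.points ∧ 0 < r v ∧ 0 < t v) ∧
    ∀ x y, x ≠ y → (G.Adj x y ↔
      (T.nbhd (c x) (r x) ∩ T.nbhd (c y) (r y)).Nonempty ∧
        min (t x) (t y) ≤ T.diam (T.nbhd (c x) (r x) ∩ T.nbhd (c y) (r y)))

/-- No induced cycle of length at least four. -/
def IsChordal {V : Type} (G : SimpleGraph V) : Prop :=
  ∀ k : ℕ, IsEmpty (SimpleGraph.cycleGraph (k + 4) ↪g G)

/-- An induced sun with `k + 3` inner vertices `u` on a cycle (with arbitrary chords, so complete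
suns are included) and `k + 3` independent outer vertices `w`, where `w i` is adjacent to exactly
`u i` and `u (i + 1)` among the inner vertices. -/
def HasInducedSun {V : Type} (G : SimpleGraph V) (k : ℕ) : Prop :=
  ∃ u w : Fin (k + 3) → V, Function.Injective (Sum.elim u w) ∧
    (∀ i, G.Adj (u i) (u (i + 1))) ∧ (∀ i j, ¬ G.Adj (w i) (w j)) ∧
    ∀ i j, G.Adj (w i) (u j) ↔ (j = i ∨ j = i + 1)

/-- Chordal and without induced suns. -/
def IsStronglyChordal {V : Type} (G : SimpleGraph V) : Prop :=
  IsChordal G ∧ ∀ k : ℕ, ¬ HasInducedSun G k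

end Pool.Agent.MP_64e20d_co
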