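import Pool.Agent.MP_64e20d_co.Defs

set_option autoImplicit false

namespace Pool.Agent.MP_64e20d_co

/-- Base vertices: a kind (0 = Z, 1 = X, 2 = x, 3 = Y, 4 = y) and an index. -/
abbrev B : Type := Fin 5 × Fin 5

/-- Kinds that are completely joined. -/
def full (k l : Fin 5) : Bool :=
  match k.val, l.val with
  | 0, 0 => true | 0, 1 => true | 1, 0 => true | 0, 3 => true | 3, 0 => true
  | 1, 1 => true | 3, 3 => true | _, _ => false

/-- Kinds that are joined index by index. -/
def diag (k l : Fin 5) : Bool :=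
  match k.val, l.val with
  | 2, 2 => true | 2, 1 => true | 1, 2 => true | 2, 0 => true | 0, 2 => true
  | 4, 4 => true | 4, 3 => true | 3, 4 => true | 4, 0 => true | 0, 4 => true
  | _, _ => false

/-- The reflexive adjacency of the base graph. -/
def rel (u v : B) : Bool := full u.1 v.1 || (diag u.1 v.1 && decide (u.2 = v.2))

/-- The elimination rank. -/
def rank (u : B) : ℕ :=
  match u.1.val with
  | 0 => 2 | 1 => 1 | 3 => 1 | _ => 0

theorem rel_refl : ∀ u : B, rel u u = true := by decide +kernel

theorem rel_symm : ∀ u v : B, rel u v = rel v u := by decide +kernel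

theorem rel_simple : ∀ v a : B, rel v a = true → rank v ≤ rank a → ∀ b : B, rel v b = true →
    rank v ≤ rank b → ∀ c : B, rel a c = true → rank v ≤ rank c → rel b c = false →
    ∀ d : B, rel b d = true → rank v ≤ rank d → rel a d = true := by decide +kernel

/-- The counterexample: every base vertex is replaced by two true twins. -/
def G : SimpleGraph (B × Bool) where
  Adj x y := x ≠ y ∧ rel x.1 y.1 = true
  symm := ⟨fun x y h => ⟨h.1.symm, by rw [rel_symm]; exact h.2⟩⟩
  loopless := ⟨fun x h => h.1 rfl⟩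

theorem G_adj {x y : B × Bool} : G.Adj x y ↔ x ≠ y ∧ rel x.1 y.1 = true := Iff.rfl

theorem rel_false {x y : B × Bool} (h : x ≠ y) (h' : ¬ G.Adj x y) : rel x.1 y.1 = false := by
  by_contra hc
  exact h' ⟨h, by simpa using hc⟩

theorem simple {v a b c d : B × Bool} (ha : rank v.1 ≤ rank a.1) (hb : rank v.1 ≤ rank b.1)
    (hc : rank v.1 ≤ rank c.1) (hd : rank v.1 ≤ rank d.1) (hva : G.Adj v a) (hvb : G.Adj v b)
    (hac : a = c ∨ G.Adj a c) (hbd : b = d ∨ G.Adj b d) (hbc : b ≠ c) (hbc' : ¬ G.Adj b c)
    (had : a ≠ d) : G.Adj a d := by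
  refine ⟨had, rel_simple v.1 a.1 hva.2 ha b.1 hvb.2 hb c.1 ?_ hc (rel_false hbc hbc') d.1 ?_ hd⟩
  · rcases hac with rfl | h
    · exact rel_refl _
    · exact h.2
  · rcases hbd with rfl | h
    · exact rel_refl _
    · exact h.2

theorem G_chordal : IsChordal G := by
  intro k
  refine ⟨fun f => ?_⟩
  obtain ⟨i, -, hi⟩ := Finset.exists_min_image Finset.univ (fun i => rank (f i).1)
    Finset.univ_nonempty
  have h1 : (SimpleGraph.cycleGraph (k + 4)).Adj i (i + 1) := by
    rw [SimpleGraph.cycleGraph_adj]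
    right
    simp
  have h2 : (SimpleGraph.cycleGraph (k + 4)).Adj i (i - 1) := by
    rw [SimpleGraph.cycleGraph_adj]
    left
    simp
  have h2ne : (2 : Fin (k + 4)) ≠ 0 := by
    intro h
    have := congrArg Fin.val h
    rw [Fin.val_zero] at this
    change 2 % (k + 4) = 0 at this
    rw [Nat.mod_eq_of_lt (by omega)] at this
    omega
  have h3ne : (3 : Fin (k + 4)) ≠ 0 := by
    intro h
    have := congrArg Fin.val h
    rw [Fin.val_zero] at this
    change 3 % (k + 4) = 0 at this
    rw [Nat.mod_eq_of_lt (by omega)] at this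
    omega
  have h1ne : (1 : Fin (k + 4)) ≠ 0 := by
    intro h
    have := congrArg Fin.val h
    simp at this
  have hne : i + 1 ≠ i - 1 := by
    intro h
    apply h2ne
    open Fin.CommRing in linear_combination h
  have hna : ¬ (SimpleGraph.cycleGraph (k + 4)).Adj (i + 1) (i - 1) := by
    rw [SimpleGraph.cycleGraph_adj]
    rintro (h | h)
    · apply h1ne
      open Fin.CommRing in linear_combination h
    · apply h3ne
      open Fin.CommRing in linear_combination -h
  have hne' : f (i + 1) ≠ f (i - 1) := fun h => hne (f.injective h)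
  have hna' : ¬ G.Adj (f (i + 1)) (f (i - 1)) := fun h => hna (f.map_adj_iff.1 h)
  exact hna' (simple (v := f i) (a := f (i + 1)) (b := f (i - 1)) (c := f (i + 1))
    (d := f (i - 1)) (hi _ (Finset.mem_univ _)) (hi _ (Finset.mem_univ _))
    (hi _ (Finset.mem_univ _)) (hi _ (Finset.mem_univ _)) (f.map_adj_iff.2 h1)
    (f.map_adj_iff.2 h2) (Or.inl rfl) (Or.inl rfl) hne'.symm (fun h => hna' h.symm) hne')

theorem G_sunfree (k : ℕ) : ¬ HasInducedSun G k := by
  rintro ⟨u, w, hinj, -, hw, huw⟩
  obtain ⟨z, -, hz⟩ := Finset.exists_min_image Finset.univ (fun z => rank (Sum.elim u w z).1)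
    Finset.univ_nonempty
  have hu' : ∀ j, rank (Sum.elim u w z).1 ≤ rank (u j).1 := fun j =>
    hz (Sum.inl j) (Finset.mem_univ _)
  have hw' : ∀ j, rank (Sum.elim u w z).1 ≤ rank (w j).1 := fun j =>
    hz (Sum.inr j) (Finset.mem_univ _)
  have h2ne : (2 : Fin (k + 3)) ≠ 0 := by
    intro h
    have := congrArg Fin.val h
    rw [Fin.val_zero] at this
    change 2 % (k + 3) = 0 at this
    rw [Nat.mod_eq_of_lt (by omega)] at this
    omega
  have h1ne : (1 : Fin (k + 3)) ≠ 0 := by
    intro h
    have := congrArg Fin.val h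
    simp at this
  have huwne : ∀ i j, u i ≠ w j := fun i j h =>
    Sum.inl_ne_inr (hinj (a₁ := Sum.inl i) (a₂ := Sum.inr j) h)
  rcases z with i | i
  · have hne : w (i - 1) ≠ w i := by
      intro h
      have h' := Sum.inr.inj (hinj (a₁ := Sum.inr (i - 1)) (a₂ := Sum.inr i) h)
      apply h1ne
      open Fin.CommRing in linear_combination -h'
    exact hw _ _ (simple (v := u i) (a := w (i - 1)) (b := w i) (c := w (i - 1)) (d := w i)
      (hw' _) (hw' _) (hw' _) (hw' _) ((huw _ _).2 (Or.inr (by simp))).symm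
      ((huw _ _).2 (Or.inl rfl)).symm (Or.inl rfl) (Or.inl rfl) hne.symm (hw _ _) hne)
  · have h1 : ¬ G.Adj (u (i + 1)) (w (i - 1)) := by
      intro h
      rcases (huw _ _).1 h.symm with h' | h'
      · apply h2ne
        open Fin.CommRing in linear_combination h'
      · apply h1ne
        open Fin.CommRing in linear_combination h'
    have h2 : ¬ G.Adj (u i) (w (i + 1)) := by
      intro h
      rcases (huw _ _).1 h.symm with h' | h'
      · apply h1ne
        open Fin.CommRing in linear_combination -h'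
      · apply h2ne
        open Fin.CommRing in linear_combination -h'
    exact h2 (simple (v := w i) (a := u i) (b := u (i + 1)) (c := w (i - 1)) (d := w (i + 1))
      (hu' _) (hu' _) (hw' _) (hw' _) ((huw _ _).2 (Or.inl rfl)) ((huw _ _).2 (Or.inr rfl))
      (Or.inr ((huw _ _).2 (Or.inr (by simp))).symm) (Or.inr ((huw _ _).2 (Or.inl rfl)).symm)
      (huwne _ _) h1 (huwne _ _))

theorem G_stronglyChordal : IsStronglyChordal G := ⟨G_chordal, G_sunfree⟩

end Pool.Agent.MP_64e20d_co
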