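import Pool.Agent.MP_64e20d_co.Graph

set_option autoImplicit false

namespace Pool.Agent.MP_64e20d_co

section abstract

variable {α : Type} {D : α → α → ℝ} {s : α → ℝ}

/-- The strict quartet `ab | cd`. -/
def Q (D : α → α → ℝ) (a b c d : α) : Prop :=
  D a b + D c d < D a c + D b d ∧ D a b + D c d < D a d + D b c

theorem Q.add (hs : ∀ a b, D a b = D b a)
    (h4 : ∀ a b c d, D a b + D c d ≤ max (D a c + D b d) (D a d + D b c)) {a b c d : α}
    (h : Q D a b c d) : D a c + D b d = D a d + D b c := by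
  obtain ⟨h1, h2⟩ := h
  have e1 := h4 a c b d
  have e2 := h4 a d b c
  rw [hs c b] at e1
  rw [hs d c, hs d b] at e2
  rcases le_max_iff.1 e1 with e1 | e1 <;> rcases le_max_iff.1 e2 with e2 | e2 <;> linarith

theorem Q.symm (hs : ∀ a b, D a b = D b a) {a b c d : α} (h : Q D a b c d) : Q D c d a b := by
  obtain ⟨h1, h2⟩ := h
  refine ⟨?_, ?_⟩
  · rw [hs c a, hs d b]; linarith
  · rw [hs c b, hs d a]; linarith

theorem Q.trans (hs : ∀ a b, D a b = D b a)
    (h4 : ∀ a b c d, D a b + D c d ≤ max (D a c + D b d) (D a d + D b c)) {a b c d e : α}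
    (h : Q D a b c d) (h' : Q D a b d e) : Q D a b c e := by
  have a1 := h.add hs h4
  have a2 := h'.add hs h4
  obtain ⟨h1, h2⟩ := h
  obtain ⟨h3, h5⟩ := h'
  have e1 := h4 c e a d
  rw [hs c a, hs e d, hs e a] at e1
  refine ⟨?_, ?_⟩ <;> rcases le_max_iff.1 e1 with e1 | e1 <;> linarith

theorem Q_of_twoK2 (hs : ∀ a b, D a b = D b a)
    (h4 : ∀ a b c d, D a b + D c d ≤ max (D a c + D b d) (D a d + D b c)) {a b c d : α}
    (hab : D a b ≤ max (s a) (s b)) (hcd : D c d ≤ max (s c) (s d))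
    (hac : max (s a) (s c) < D a c) (had : max (s a) (s d) < D a d)
    (hbc : max (s b) (s c) < D b c) (hbd : max (s b) (s d) < D b d) : Q D a b c d := by
  have e1 := h4 a c b d
  have e2 := h4 a d b c
  rw [hs c b] at e1
  rw [hs d c, hs d b] at e2
  rw [max_lt_iff] at hac had hbc hbd
  obtain ⟨_, _⟩ := hac
  obtain ⟨_, _⟩ := had
  obtain ⟨_, _⟩ := hbc
  obtain ⟨_, _⟩ := hbd
  have key : D a b + D c d < D a c + D b d ∨ D a b + D c d < D a d + D b c := by
    rcases le_max_iff.1 hab with h | h <;> rcases le_max_iff.1 hcd with h' | h'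
    · right; linarith
    · left; linarith
    · left; linarith
    · right; linarith
  rcases key with key | key
  · refine ⟨key, ?_⟩
    rcases le_max_iff.1 e1 with e1 | e1 <;> linarith
  · refine ⟨?_, key⟩
    rcases le_max_iff.1 e2 with e2 | e2 <;> linarith

end abstract

theorem no_bounded_rep (D : B → B → ℝ) (s : B → ℝ) (hs : ∀ a b, D a b = D b a)
    (h4 : ∀ a b c d, D a b + D c d ≤ max (D a c + D b d) (D a d + D b c))
    (hrep : ∀ u v, u ≠ v → (rel u v = true ↔ D u v ≤ max (s u) (s v))) : False := by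
  have hE : ∀ u v, u ≠ v → rel u v = true → D u v ≤ max (s u) (s v) := fun u v h h' =>
    (hrep u v h).1 h'
  have hN : ∀ u v, rel u v = false → max (s u) (s v) < D u v := by
    intro u v h
    have hne : u ≠ v := by
      rintro rfl
      rw [rel_refl] at h
      exact absurd h (by decide)
    by_contra hc
    rw [(hrep u v hne).2 (not_lt.1 hc)] at h
    exact absurd h (by decide)
  have hcross : ∀ (k l i j : Fin 5), (k = 1 ∨ k = 2) → (l = 3 ∨ l = 4) →
      rel (k, i) (l, j) = false := by decide +kernel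
  have hQ0 : ∀ a b c d : B, (a.1 = 1 ∨ a.1 = 2) → (b.1 = 1 ∨ b.1 = 2) → (c.1 = 3 ∨ c.1 = 4) →
      (d.1 = 3 ∨ d.1 = 4) → a ≠ b → rel a b = true → c ≠ d → rel c d = true → Q D a b c d := by
    intro a b c d ha hb hc hd hab hab' hcd hcd'
    exact Q_of_twoK2 hs h4 (hE a b hab hab') (hE c d hcd hcd') (hN _ _ (hcross _ _ _ _ ha hc))
      (hN _ _ (hcross _ _ _ _ ha hd)) (hN _ _ (hcross _ _ _ _ hb hc))
      (hN _ _ (hcross _ _ _ _ hb hd))
  have r43 : ∀ k : Fin 5, rel (4, k) (3, k) = true := by decide +kernel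
  have r33 : ∀ k l : Fin 5, rel (3, k) (3, l) = true := by decide +kernel
  have r34 : ∀ k : Fin 5, rel (3, k) (4, k) = true := by decide +kernel
  have r21 : ∀ k : Fin 5, rel (2, k) (1, k) = true := by decide +kernel
  have r11 : ∀ k l : Fin 5, rel (1, k) (1, l) = true := by decide +kernel
  have r12 : ∀ k : Fin 5, rel (1, k) (2, k) = true := by decide +kernel
  have hQ1 : ∀ a b : B, (a.1 = 1 ∨ a.1 = 2) → (b.1 = 1 ∨ b.1 = 2) → a ≠ b → rel a b = true →
      ∀ k l : Fin 5, k ≠ l → Q D a b (4, k) (4, l) := by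
    intro a b ha hb hab hab' k l hkl
    have q1 := hQ0 a b (4, k) (3, k) ha hb (Or.inr rfl) (Or.inl rfl) hab hab' (by simp) (r43 k)
    have q2 := hQ0 a b (3, k) (3, l) ha hb (Or.inl rfl) (Or.inl rfl) hab hab' (by simpa using hkl)
      (r33 k l)
    have q3 := hQ0 a b (3, l) (4, l) ha hb (Or.inl rfl) (Or.inr rfl) hab hab' (by simp) (r34 l)
    exact (q1.trans hs h4 q2).trans hs h4 q3
  have hQ : ∀ i j k l : Fin 5, i ≠ j → k ≠ l → Q D (2, i) (2, j) (4, k) (4, l) := by
    intro i j k l hij hkl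
    have q1 := (hQ1 (2, i) (1, i) (Or.inr rfl) (Or.inl rfl) (by simp) (r21 i) k l hkl).symm hs
    have q2 := (hQ1 (1, i) (1, j) (Or.inl rfl) (Or.inl rfl) (by simpa using hij) (r11 i j)
      k l hkl).symm hs
    have q3 := (hQ1 (1, j) (2, j) (Or.inl rfl) (Or.inr rfl) (by simp) (r12 j) k l hkl).symm hs
    exact ((q1.trans hs h4 q2).trans hs h4 q3).symm hs
  have hadd : ∀ i j k l : Fin 5,
      D (2, i) (4, k) + D (2, j) (4, l) = D (2, i) (4, l) + D (2, j) (4, k) := by
    intro i j k l
    by_cases hij : i = j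
    · subst hij; ring
    by_cases hkl : k = l
    · subst hkl; ring
    exact (hQ i j k l hij hkl).add hs h4
  have hdeg : ∀ z : B,
      (∀ i j : Fin 5, D z (2, i) + D (2, j) (4, 0) = D z (2, j) + D (2, i) (4, 0)) ∨
      (∀ k l : Fin 5, D z (4, k) + D (2, 0) (4, l) = D z (4, l) + D (2, 0) (4, k)) := by
    intro z
    by_contra hcon
    rw [not_or] at hcon
    obtain ⟨h1, h2⟩ := hcon
    have h1' : ∃ i j : Fin 5, D z (2, i) + D (2, j) (4, 0) < D z (2, j) + D (2, i) (4, 0) := by
      by_contra hc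
      push Not at hc
      exact h1 fun i j => le_antisymm (hc j i) (hc i j)
    have h2' : ∃ k l : Fin 5, D z (4, k) + D (2, 0) (4, l) < D z (4, l) + D (2, 0) (4, k) := by
      by_contra hc
      push Not at hc
      exact h2 fun i j => le_antisymm (hc j i) (hc i j)
    obtain ⟨i, j, hij⟩ := h1'
    obtain ⟨k, l, hkl⟩ := h2'
    have hij' : i ≠ j := by rintro rfl; exact lt_irrefl _ hij
    have hkl' : k ≠ l := by rintro rfl; exact lt_irrefl _ hkl
    have a1 := hadd i j k 0
    have a2 := hadd i 0 k l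
    have q := (hQ i j k l hij' hkl').2
    have e1 := h4 z (2, j) (2, i) (4, k)
    have e2 := h4 z (4, l) (4, k) (2, i)
    rw [hs (2, j) (2, i)] at e1
    rw [hs (4, k) (2, i), hs (4, l) (2, i), hs (4, l) (4, k)] at e2
    rcases le_max_iff.1 e1 with e1 | e1 <;> rcases le_max_iff.1 e2 with e2 | e2 <;> linarith
  have hZ : ∀ m : Fin 5, (m = 2 ∨ m = 4) → ∀ i j : Fin 5, i ≠ j →
      D (0, i) (m, i) + D (0, j) (m, j) = D (0, i) (m, j) + D (0, j) (m, i) →
      (D (0, i) (m, i) ≤ s (m, i) ↔ D (0, j) (m, j) ≤ s (m, j)) → False := by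
    intro m hm i j hij heq hty
    have r1 : ∀ m : Fin 5, (m = 2 ∨ m = 4) → ∀ i : Fin 5, rel (0, i) (m, i) = true := by
      decide +kernel
    have r2 : ∀ m : Fin 5, (m = 2 ∨ m = 4) → ∀ i j : Fin 5, i ≠ j →
      rel (0, i) (m, j) = false := by decide +kernel
    have hm0 : (0 : Fin 5) ≠ m := by rcases hm with rfl | rfl <;> decide
    have b1 := hE (0, i) (m, i) (by simpa using hm0) (r1 m hm i)
    have b2 := hE (0, j) (m, j) (by simpa using hm0) (r1 m hm j)
    have n1 := max_lt_iff.1 (hN _ _ (r2 m hm i j hij))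
    have n2 := max_lt_iff.1 (hN _ _ (r2 m hm j i hij.symm))
    obtain ⟨_, _⟩ := n1
    obtain ⟨_, _⟩ := n2
    by_cases hA : D (0, i) (m, i) ≤ s (m, i)
    · have hB := hty.1 hA
      linarith
    · have hB : ¬ D (0, j) (m, j) ≤ s (m, j) := fun h => hA (hty.2 h)
      rcases le_max_iff.1 b1 with b1 | b1
      · rcases le_max_iff.1 b2 with b2 | b2
        · linarith
        · exact hB b2
      · exact hA b1
  classical
  let dg : Fin 5 → Prop := fun i =>
    ∀ a b : Fin 5, D (0, i) (2, a) + D (2, b) (4, 0) = D (0, i) (2, b) + D (2, a) (4, 0)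
  let f : Fin 5 → Bool × Bool := fun i =>
    if dg i then (true, decide (D (0, i) (2, i) ≤ s (2, i)))
    else (false, decide (D (0, i) (4, i) ≤ s (4, i)))
  obtain ⟨i, j, hij, hf⟩ := Fintype.exists_ne_map_eq_of_card_lt f (by simp)
  by_cases hi : dg i <;> by_cases hj : dg j
  · simp only [f, if_pos hi, if_pos hj, Prod.mk.injEq, true_and, decide_eq_decide] at hf
    refine hZ 2 (Or.inl rfl) i j hij ?_ hf
    have := hi i j
    have := hj i j
    linarith
  · simp [f, if_pos hi, if_neg hj] at hf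
  · simp [f, if_neg hi, if_pos hj] at hf
  · simp only [f, if_neg hi, if_neg hj, Prod.mk.injEq, true_and, decide_eq_decide] at hf
    refine hZ 4 (Or.inr rfl) i j hij ?_ hf
    have h1 := ((hdeg (0, i)).resolve_left hi) i j
    have h2 := ((hdeg (0, j)).resolve_left hj) i j
    linarith

/-- No representation of the doubled graph, in terms of a four-point function. -/
theorem no_rep (d : B × Bool → B × Bool → ℝ) (r t : B × Bool → ℝ) (hs : ∀ a b, d a b = d b a)
    (h4 : ∀ a b c e, d a b + d c e ≤ max (d a c + d b e) (d a e + d b c))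
    (hrep : ∀ x y, x ≠ y → (G.Adj x y ↔
      min (t x) (t y) ≤ min (min (2 * r x) (2 * r y)) (r x + r y - d x y))) : False := by
  have hb : ∀ u : B, ∃ b : Bool, t (u, b) ≤ 2 * r (u, b) := by
    intro u
    have hne : ((u, false) : B × Bool) ≠ (u, true) := by simp
    have h := (hrep _ _ hne).1 ⟨hne, rel_refl u⟩
    rw [le_min_iff, le_min_iff] at h
    rcases min_le_iff.1 h.1.1 with h1 | h1
    · exact ⟨false, h1⟩
    · rcases min_le_iff.1 h.1.2 with h2 | h2
      · rcases le_total (r (u, false)) (r (u, true)) with h3 | h3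
        · exact ⟨true, by linarith⟩
        · exact ⟨false, by linarith⟩
      · exact ⟨true, h2⟩
  choose σ hσ using hb
  refine no_bounded_rep (fun u v => d (u, σ u) (v, σ v) - r (u, σ u) - r (v, σ v))
    (fun u => - t (u, σ u)) ?_ ?_ ?_
  · intro a b
    rw [hs]
    ring
  · intro a b c e
    have := h4 (a, σ a) (b, σ b) (c, σ c) (e, σ e)
    rcases le_max_iff.1 this with h | h
    · exact le_max_of_le_left (by linarith)
    · exact le_max_of_le_right (by linarith)
  · intro u v huv
    have hne : ((u, σ u) : B × Bool) ≠ (v, σ v) := fun h => huv (congrArg Prod.fst h)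
    have h := hrep _ _ hne
    rw [G_adj] at h
    simp only [ne_eq, hne, not_false_eq_true, true_and] at h
    rw [h, le_min_iff, le_min_iff]
    have h1 : min (t (u, σ u)) (t (v, σ v)) ≤ 2 * r (u, σ u) := (min_le_left _ _).trans (hσ u)
    have h2 : min (t (u, σ u)) (t (v, σ v)) ≤ 2 * r (v, σ v) := (min_le_right _ _).trans (hσ v)
    simp only [h1, h2, true_and, min_le_iff, le_max_iff]
    constructor
    · rintro (h | h)
      · left; linarith
      · right; linarith
    · rintro (h | h)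
      · left; linarith
      · right; linarith

end Pool.Agent.MP_64e20d_co
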