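import Pool.Agent.MP_64e20d_co.Tree
import Pool.Agent.MP_64e20d_co.Quartet

set_option autoImplicit false

namespace Pool.Agent.MP_64e20d_co

open EmbeddedTree Set

variable {T : EmbeddedTree}

theorem exists_mem_balls {m m' : Plane} (hm : m ∈ T.points) (hm' : m' ∈ T.points) {ρ ρ' : ℝ}
    (hρ : 0 ≤ ρ) (hρ' : 0 ≤ ρ') (h : T.delta m m' ≤ ρ + ρ') :
    ∃ a ∈ T.points, T.delta m a ≤ ρ ∧ T.delta m' a ≤ ρ' := by
  rcases le_total (T.delta m m') ρ with h1 | h1
  · exact ⟨m', hm', h1, by rw [delta_self]; exact hρ'⟩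
  · obtain ⟨a, ha, h2, h3⟩ := delta_geodesic hm hm' ρ hρ h1
    exact ⟨a, ha, h2.le, by rw [delta_symm]; linarith⟩

theorem not_isNeST : ¬ IsNeST G := by
  rintro ⟨T, c, r, t, hc, hrep⟩
  refine no_rep (fun x y => T.delta (c x) (c y)) r t (fun a b => delta_symm _ _)
    (fun a b c' e => delta_four (hc a).1 (hc b).1 (hc c').1 (hc e).1) ?_
  intro x y hxy
  rw [hrep x y hxy, d_eq (hc x).1 (hc y).1]
  refine ⟨fun h => h.2, fun h => ⟨?_, h⟩⟩
  have h1 : 0 < min (t x) (t y) := lt_min (hc x).2.2 (hc y).2.2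
  have h2 := (le_min_iff.1 h).2
  obtain ⟨a, ha, h3, h4⟩ := exists_mem_balls (hc x).1 (hc y).1 (hc x).2.1.le (hc y).2.1.le
    (by linarith)
  exact ⟨a, (mem_nbhd (hc x).1).2 ⟨ha, h3⟩, (mem_nbhd (hc y).1).2 ⟨ha, h4⟩⟩

theorem recenter {c : Plane} (hc : c ∈ T.points) {r : ℝ} (hr : 0 ≤ r) :
    ∃ m ∈ T.points, ∃ ρ : ℝ, 0 ≤ ρ ∧ (∀ a, a ∈ T.nbhd c r ↔ a ∈ T.points ∧ T.delta m a ≤ ρ) ∧
      ∃ u ∈ T.points, ∃ u' ∈ T.points, T.delta m u = ρ ∧ T.delta m u' = ρ ∧
        T.delta u u' = 2 * ρ := by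
  obtain ⟨u, hu, u', hu', hmax⟩ := exists_diameter hc hr
  have h0 := delta_nonneg (T := T) u u'
  obtain ⟨m, hm, h1, h2⟩ := delta_geodesic hu.1 hu'.1 (T.delta u u' / 2) (by linarith)
    (by linarith)
  rw [delta_symm] at h1
  refine ⟨m, hm, T.delta u u' / 2, by linarith, ?_, u, hu.1, u', hu'.1, h1, by linarith, by ring⟩
  intro a
  constructor
  · intro ha
    refine ⟨ha.1, ?_⟩
    have e := delta_four ha.1 hm hu.1 hu'.1
    have b1 := hmax a ha u hu
    have b2 := hmax a ha u' hu'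
    rw [delta_symm]
    rcases le_max_iff.1 e with e | e <;> linarith
  · rintro ⟨ha, ha'⟩
    refine (mem_nbhd hc).2 ⟨ha, ?_⟩
    have e := delta_four hc hm hu.1 hu'.1
    have b1 := ((mem_nbhd hc).1 hu).2
    have b2 := ((mem_nbhd hc).1 hu').2
    have b3 := delta_triangle (T := T) c m a
    rcases le_max_iff.1 e with e | e <;> linarith

theorem far_point {m m' u u' : Plane} (hm : m ∈ T.points) (hm' : m' ∈ T.points)
    (hu : u ∈ T.points) (hu' : u' ∈ T.points) {ρ ρ' : ℝ} (hρ' : 0 ≤ ρ')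
    (h1 : T.delta m u = ρ) (h2 : T.delta m u' = ρ) (h3 : T.delta u u' = 2 * ρ)
    (h4 : ρ' ≤ T.delta m m' + ρ) :
    ∃ a ∈ T.points, T.delta m' a = ρ' ∧ T.delta m a ≤ |ρ' - T.delta m m'| := by
  have key : ∀ w ∈ T.points, T.delta m w = ρ → T.delta m m' + ρ ≤ T.delta m' w →
      ∃ a ∈ T.points, T.delta m' a = ρ' ∧ T.delta m a ≤ |ρ' - T.delta m m'| := by
    intro w hw hw1 hw2
    obtain ⟨a, ha, a1, a2⟩ := delta_geodesic hm' hw ρ' hρ' (by linarith)
    refine ⟨a, ha, a1, ?_⟩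
    have e := delta_four ha hm hm' hw
    have t1 := delta_triangle (T := T) m' m w
    rw [delta_symm a m, delta_symm a m'] at e
    rw [delta_symm m' m] at t1
    rcases le_max_iff.1 e with e | e
    · exact le_trans (by linarith) (le_abs_self _)
    · exact le_trans (by linarith) (neg_le_abs _)
  have e := delta_four hm' hm hu hu'
  rw [delta_symm m' m] at e
  rcases le_max_iff.1 e with e | e
  · exact key u hu h1 (by linarith)
  · exact key u' hu' h2 (by linarith)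

theorem inter_iff {S S' : Set Plane} {m m' u u' w w' : Plane} {ρ ρ' τ : ℝ} (hτ : 0 < τ)
    (hm : m ∈ T.points) (hm' : m' ∈ T.points) (hρ : 0 ≤ ρ) (hρ' : 0 ≤ ρ')
    (hS : ∀ a, a ∈ S ↔ a ∈ T.points ∧ T.delta m a ≤ ρ)
    (hS' : ∀ a, a ∈ S' ↔ a ∈ T.points ∧ T.delta m' a ≤ ρ')
    (hu : u ∈ T.points) (hu' : u' ∈ T.points) (h1 : T.delta m u = ρ) (h2 : T.delta m u' = ρ)
    (h3 : T.delta u u' = 2 * ρ)
    (hw : w ∈ T.points) (hw' : w' ∈ T.points) (k1 : T.delta m' w = ρ') (k2 : T.delta m' w' = ρ')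
    (k3 : T.delta w w' = 2 * ρ') :
    ((S ∩ S').Nonempty ∧ τ ≤ T.diam (S ∩ S')) ↔
      τ ≤ min (min (2 * ρ) (2 * ρ')) (ρ + ρ' - T.delta m m') := by
  have hub : ∀ L ∈ {L : ℝ | ∃ p ∈ S ∩ S', ∃ q ∈ S ∩ S', L = T.d p q},
      L ≤ min (min (2 * ρ) (2 * ρ')) (ρ + ρ' - T.delta m m') := by
    rintro _ ⟨p, hp, q, hq, rfl⟩
    have p1 := (hS p).1 hp.1
    have p2 := (hS' p).1 hp.2
    have q1 := (hS q).1 hq.1
    have q2 := (hS' q).1 hq.2
    rw [d_eq p1.1 q1.1]
    have t1 := delta_triangle (T := T) p m q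
    have t2 := delta_triangle (T := T) p m' q
    have e := delta_four p1.1 q1.1 hm hm'
    rw [delta_symm p m, delta_symm p m', delta_symm q m, delta_symm q m'] at e
    rw [delta_symm p m] at t1
    rw [delta_symm p m'] at t2
    have := p1.2
    have := p2.2
    have := q1.2
    have := q2.2
    refine le_min (le_min (by linarith) (by linarith)) ?_
    rcases le_max_iff.1 e with e | e <;> linarith
  constructor
  · rintro ⟨⟨p, hp⟩, h⟩
    exact h.trans (csSup_le ⟨_, p, hp, p, hp, rfl⟩ hub)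
  · intro h
    have key : ∃ a ∈ T.points, ∃ b ∈ T.points, T.delta m a ≤ ρ ∧ T.delta m' a ≤ ρ' ∧
        T.delta m b ≤ ρ ∧ T.delta m' b ≤ ρ' ∧ τ ≤ T.delta a b := by
      rw [le_min_iff, le_min_iff] at h
      obtain ⟨⟨g1, g2⟩, g3⟩ := h
      by_cases c1 : T.delta m m' + ρ ≤ ρ'
      · have t1 := delta_triangle (T := T) m' m u
        have t2 := delta_triangle (T := T) m' m u'
        rw [delta_symm m' m] at t1 t2
        exact ⟨u, hu, u', hu', h1.le, by linarith, h2.le, by linarith, by rw [h3]; exact g1⟩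
      by_cases c2 : T.delta m m' + ρ' ≤ ρ
      · have t1 := delta_triangle (T := T) m m' w
        have t2 := delta_triangle (T := T) m m' w'
        exact ⟨w, hw, w', hw', by linarith, k1.le, by linarith, k2.le, by rw [k3]; exact g2⟩
      rw [not_le] at c1 c2
      obtain ⟨a, ha, a1, a2⟩ := far_point hm hm' hu hu' hρ' h1 h2 h3 c1.le
      obtain ⟨b, hb, b1, b2⟩ := far_point hm' hm hw hw' hρ k1 k2 k3
        (by rw [delta_symm]; exact c2.le)
      rw [delta_symm m' m] at b2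
      have a3 : T.delta m a < ρ := a2.trans_lt (abs_lt.2 ⟨by linarith, by linarith⟩)
      have b3 : T.delta m' b < ρ' := b2.trans_lt (abs_lt.2 ⟨by linarith, by linarith⟩)
      refine ⟨a, ha, b, hb, a3.le, a1.le, b1.le, b3.le, ?_⟩
      have e := delta_four ha hm' hb hm
      rw [delta_symm a m', delta_symm b m, delta_symm m' m, delta_symm a m] at e
      rcases le_max_iff.1 e with e | e <;> linarith
    obtain ⟨a, ha, b, hb, j1, j2, j3, j4, j5⟩ := key
    have ha' : a ∈ S ∩ S' := ⟨(hS a).2 ⟨ha, j1⟩, (hS' a).2 ⟨ha, j2⟩⟩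
    have hb' : b ∈ S ∩ S' := ⟨(hS b).2 ⟨hb, j3⟩, (hS' b).2 ⟨hb, j4⟩⟩
    refine ⟨⟨a, ha'⟩, j5.trans ?_⟩
    rw [← d_eq ha hb]
    exact le_csSup ⟨_, hub⟩ ⟨a, ha', b, hb', rfl⟩

theorem not_isNeSTDiam : ¬ IsNeSTDiam G := by
  rintro ⟨T, c, r, t, hc, hrep⟩
  choose m hm ρ hρ hball u hu u' hu' h1 h2 h3 using
    fun v => recenter (hc v).1 (hc v).2.1.le
  refine no_rep (fun x y => T.delta (m x) (m y)) ρ t (fun a b => delta_symm _ _)
    (fun a b c' e => delta_four (hm a) (hm b) (hm c') (hm e)) ?_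
  intro x y hxy
  rw [hrep x y hxy]
  exact inter_iff (lt_min (hc x).2.2 (hc y).2.2) (hm x) (hm y) (hρ x) (hρ y) (hball x) (hball y)
    (hu x) (hu' x) (h1 x) (h2 x) (h3 x) (hu y) (hu' y) (h1 y) (h2 y) (h3 y)

/-! A sanity check of the definitions: the four-cycle is a NeST graph in both readings. -/

/-- The point of the first axis with abscissa `x`. -/
noncomputable def ax (x : ℝ) : Plane := EuclideanSpace.single 0 x

theorem dist_ax (x y : ℝ) : dist (ax x) (ax y) = |x - y| := by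
  unfold ax
  rw [PiLp.dist_single_same, Real.dist_eq]

/-- The tree with one edge of length seven. -/
noncomputable def edgeTree : EmbeddedTree where
  n := 2
  graph := ⊤
  isTree := ⟨SimpleGraph.connected_top, SimpleGraph.IsAcyclic.of_card_le_two (by simp)⟩
  pos := fun i => ax (7 * (i.val : ℝ))
  pos_injective := by
    intro i j h
    have := dist_ax (7 * (i.val : ℝ)) (7 * (j.val : ℝ))
    rw [show ax (7 * (i.val : ℝ)) = ax (7 * (j.val : ℝ)) from h, dist_self] at this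
    have h2 : (i.val : ℝ) = j.val := by
      have := abs_eq_zero.1 this.symm
      linarith
    exact Fin.ext (by exact_mod_cast h2)
  noncrossing := by
    intro a b c d hab hcd hne
    exfalso
    revert a b c d
    decide

theorem edge_adj : edgeTree.graph.Adj (0 : Fin 2) (1 : Fin 2) := by
  change (⊤ : SimpleGraph (Fin 2)).Adj 0 1
  decide

theorem ax_mem {x : ℝ} (h0 : 0 ≤ x) (h7 : x ≤ 7) :
    ax x ∈ edgeTree.seg (0 : Fin 2) (1 : Fin 2) := by
  refine ⟨1 - x / 7, x / 7, by linarith, by linarith, by ring, ?_⟩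
  change (1 - x / 7) • ax (7 * ((0 : ℕ) : ℝ)) + (x / 7) • ax (7 * ((1 : ℕ) : ℝ)) = ax x
  ext i
  fin_cases i <;> simp [ax]

theorem ax_points {x : ℝ} (h0 : 0 ≤ x) (h7 : x ≤ 7) : ax x ∈ edgeTree.points :=
  Or.inr ⟨_, _, edge_adj, ax_mem h0 h7⟩

theorem delta_ax {x y : ℝ} (h0 : 0 ≤ x) (h7 : x ≤ 7) (k0 : 0 ≤ y) (k7 : y ≤ 7) :
    edgeTree.delta (ax x) (ax y) = |x - y| := by
  rw [delta_step edge_adj (ax_mem h0 h7) (ax_mem k0 k7), dist_ax]

/-- Centers for the four-cycle. -/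
def cc : Fin 4 → ℝ := ![2, 3, 5, 4]

/-- Tolerances for the four-cycle. -/
noncomputable def tt : Fin 4 → ℝ := ![2, 7 / 2, 2, 7 / 2]

theorem cc_bounds (v : Fin 4) : 2 ≤ cc v ∧ cc v ≤ 5 := by
  fin_cases v <;> simp [cc] <;> norm_num

theorem tt_pos (v : Fin 4) : 0 < tt v := by
  fin_cases v <;> simp [tt]

theorem c4_formula (x y : Fin 4) (h : x ≠ y) : (SimpleGraph.cycleGraph 4).Adj x y ↔
    min (tt x) (tt y) ≤ min (min (2 * 2) (2 * 2)) (2 + 2 - |cc x - cc y|) := by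
  fin_cases x <;> fin_cases y <;> first
    | exact absurd rfl h
    | (refine iff_of_true (by decide) ?_; simp [tt, cc]; norm_num [abs_of_nonneg, abs_of_nonpos])
    | (refine iff_of_false (by decide) ?_; simp [tt, cc]; norm_num [abs_of_nonneg, abs_of_nonpos])

theorem c4_isNeST : IsNeST (SimpleGraph.cycleGraph 4) := by
  have hp : ∀ v, ax (cc v) ∈ edgeTree.points := fun v =>
    ax_points (by linarith [(cc_bounds v).1]) (by linarith [(cc_bounds v).2])
  have hd : ∀ x y, edgeTree.delta (ax (cc x)) (ax (cc y)) = |cc x - cc y| := fun x y =>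
    delta_ax (by linarith [(cc_bounds x).1]) (by linarith [(cc_bounds x).2])
      (by linarith [(cc_bounds y).1]) (by linarith [(cc_bounds y).2])
  refine ⟨edgeTree, fun v => ax (cc v), fun _ => 2, tt, fun v => ⟨hp v, by norm_num, tt_pos v⟩,
    fun x y hxy => ?_⟩
  rw [c4_formula x y hxy, d_eq (hp x) (hp y), hd]
  refine ⟨fun h => ⟨?_, h⟩, fun h => h.2⟩
  have h1 : 0 < min (tt x) (tt y) := lt_min (tt_pos x) (tt_pos y)
  have h2 := (le_min_iff.1 h).2
  obtain ⟨a, ha, h3, h4⟩ := exists_mem_balls (hp x) (hp y) (ρ := 2) (ρ' := 2) (by norm_num)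
    (by norm_num) (by rw [hd]; linarith)
  exact ⟨a, (mem_nbhd (hp x)).2 ⟨ha, h3⟩, (mem_nbhd (hp y)).2 ⟨ha, h4⟩⟩

theorem c4_isNeSTDiam : IsNeSTDiam (SimpleGraph.cycleGraph 4) := by
  have b1 : ∀ v, 2 ≤ cc v := fun v => (cc_bounds v).1
  have b2 : ∀ v, cc v ≤ 5 := fun v => (cc_bounds v).2
  have hp : ∀ v, ax (cc v) ∈ edgeTree.points := fun v =>
    ax_points (by linarith [b1 v]) (by linarith [b2 v])
  have hu : ∀ v, ax (cc v - 2) ∈ edgeTree.points := fun v =>
    ax_points (by linarith [b1 v]) (by linarith [b2 v])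
  have hu' : ∀ v, ax (cc v + 2) ∈ edgeTree.points := fun v =>
    ax_points (by linarith [b1 v]) (by linarith [b2 v])
  have h1 : ∀ v, edgeTree.delta (ax (cc v)) (ax (cc v - 2)) = 2 := fun v => by
    rw [delta_ax (by linarith [b1 v]) (by linarith [b2 v]) (by linarith [b1 v])
      (by linarith [b2 v])]
    simp
  have h2 : ∀ v, edgeTree.delta (ax (cc v)) (ax (cc v + 2)) = 2 := fun v => by
    rw [delta_ax (by linarith [b1 v]) (by linarith [b2 v]) (by linarith [b1 v])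
      (by linarith [b2 v])]
    simp
  have h3 : ∀ v, edgeTree.delta (ax (cc v - 2)) (ax (cc v + 2)) = 2 * 2 := fun v => by
    rw [delta_ax (by linarith [b1 v]) (by linarith [b2 v]) (by linarith [b1 v])
      (by linarith [b2 v]), show cc v - 2 - (cc v + 2) = -4 by ring]
    norm_num
  refine ⟨edgeTree, fun v => ax (cc v), fun _ => 2, tt, fun v => ⟨hp v, by norm_num, tt_pos v⟩,
    fun x y hxy => ?_⟩
  rw [c4_formula x y hxy, inter_iff (lt_min (tt_pos x) (tt_pos y)) (hp x) (hp y) (by norm_num)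
    (by norm_num) (fun a => mem_nbhd (hp x)) (fun a => mem_nbhd (hp y)) (hu x) (hu' x) (h1 x)
    (h2 x) (h3 x) (hu y) (hu' y) (h1 y) (h2 y) (h3 y),
    delta_ax (by linarith [b1 x]) (by linarith [b2 x]) (by linarith [b1 y]) (by linarith [b2 y])]

end Pool.Agent.MP_64e20d_co
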