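import Mathlib.Tactic.Monotonicity.Lemmas
import Mathlib.Topology.GDelta.MetrizableSpace
import Mathlib.Analysis.Normed.Affine.Convex
import Pool.Agent.MP_64e20d_co.Defs

set_option autoImplicit false

namespace Pool.Agent.MP_64e20d_co

namespace EmbeddedTree

open Set

variable (T : EmbeddedTree)

/-- The straight edge between two vertices. -/
abbrev seg (a b : Fin T.n) : Set Plane := segment ℝ (T.pos a) (T.pos b)

/-- The length of an edge. -/
noncomputable abbrev len (a b : Fin T.n) : ℝ := dist (T.pos a) (T.pos b)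

/-- `v` lies on the side of `b` of the edge `a b`. -/
def side (a b v : Fin T.n) : Prop := (T.graph.deleteEdges {s(a, b)}).Reachable b v

open Classical in
/-- The value of the projection onto the edge `a b` at the vertex `v`. -/
noncomputable def val (a b v : Fin T.n) : ℝ := if T.side a b v then T.len a b else 0

open Classical in
/-- The projection onto the edge `a b`, measured from `a`. -/
noncomputable def phi (a b : Fin T.n) (p : Plane) : ℝ :=
  if p ∈ T.seg a b then dist (T.pos a) p
  else if ∃ c e, T.graph.Adj c e ∧ p ∈ T.seg c e ∧ T.side a b c then T.len a b else 0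

variable {T}

theorem side_self (a b : Fin T.n) : T.side a b b := SimpleGraph.Reachable.refl _

theorem not_side {a b : Fin T.n} (h : T.graph.Adj a b) : ¬ T.side a b a := fun h' =>
  SimpleGraph.isBridge_iff.1 (SimpleGraph.isAcyclic_iff_forall_adj_isBridge.1 T.isTree.2 h) h'.symm

theorem side_adj {a b c e : Fin T.n} (h : T.graph.Adj c e) (hne : s(c, e) ≠ s(a, b)) :
    T.side a b c ↔ T.side a b e := by
  have h' : (T.graph.deleteEdges {s(a, b)}).Adj c e := by
    rw [SimpleGraph.deleteEdges_adj]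
    exact ⟨h, hne⟩
  exact ⟨fun hc => hc.trans h'.reachable, fun he => he.trans h'.symm.reachable⟩

theorem side_end {a b c e v : Fin T.n} (h : T.graph.Adj c e) (hne : s(c, e) ≠ s(a, b))
    (hv : v = c ∨ v = e) : T.side a b v ↔ T.side a b c := by
  rcases hv with rfl | rfl
  · rfl
  · exact (side_adj h hne).symm

theorem val_congr {a b u v : Fin T.n} (h : T.side a b u ↔ T.side a b v) :
    T.val a b u = T.val a b v := by
  unfold val
  by_cases hv : T.side a b v
  · rw [if_pos hv, if_pos (h.2 hv)]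
  · rw [if_neg hv, if_neg fun h' => hv (h.1 h')]

theorem val_left {a b : Fin T.n} (h : T.graph.Adj a b) : T.val a b a = 0 := if_neg (not_side h)

theorem val_right (a b : Fin T.n) : T.val a b b = T.len a b := if_pos (side_self a b)

theorem val_cases (a b v : Fin T.n) : T.val a b v = 0 ∨ T.val a b v = T.len a b := by
  unfold val
  split_ifs
  · exact Or.inr rfl
  · exact Or.inl rfl

theorem phi_of_mem {a b : Fin T.n} {p : Plane} (hp : p ∈ T.seg a b) :
    T.phi a b p = dist (T.pos a) p := if_pos hp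

theorem phi_other {a b c e : Fin T.n} {p : Plane} (hab : T.graph.Adj a b) (hce : T.graph.Adj c e)
    (hne : s(c, e) ≠ s(a, b)) (hp : p ∈ T.seg c e) : T.phi a b p = T.val a b c := by
  by_cases h : p ∈ T.seg a b
  · rw [phi_of_mem h]
    obtain ⟨v, hv1, hv2, rfl⟩ := T.noncrossing c e a b hce hab hne p hp h
    rw [← val_congr (side_end hce hne hv1)]
    rcases hv2 with rfl | rfl
    · rw [val_left hab, dist_self]
    · rw [val_right]
  · unfold phi val
    rw [if_neg h]
    have : (∃ c' e', T.graph.Adj c' e' ∧ p ∈ T.seg c' e' ∧ T.side a b c') ↔ T.side a b c := by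
      refine ⟨?_, fun hs => ⟨c, e, hce, hp, hs⟩⟩
      rintro ⟨c', e', h1, h2, h3⟩
      have hne' : s(c', e') ≠ s(a, b) := by
        intro h4
        apply h
        rcases Sym2.eq_iff.1 h4 with ⟨rfl, rfl⟩ | ⟨rfl, rfl⟩
        · exact h2
        · rw [seg, segment_symm]; exact h2
      by_cases h5 : s(c', e') = s(c, e)
      · rcases Sym2.eq_iff.1 h5 with ⟨rfl, rfl⟩ | ⟨rfl, rfl⟩
        · exact h3
        · exact (side_adj hce hne).2 h3
      · obtain ⟨v, hv1, hv2, -⟩ := T.noncrossing c' e' c e h1 hce h5 p h2 hp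
        exact (side_end hce hne hv2).1 ((side_end h1 hne' hv1).2 h3)
    by_cases hv : T.side a b c
    · rw [if_pos hv, if_pos (this.2 hv)]
    · rw [if_neg hv, if_neg fun h' => hv (this.1 h')]

theorem phi_vertex {a b : Fin T.n} (hab : T.graph.Adj a b) (v : Fin T.n) :
    T.phi a b (T.pos v) = T.val a b v := by
  by_cases h1 : v = a
  · subst h1
    rw [phi_of_mem (left_mem_segment _ _ _), val_left hab, dist_self]
  by_cases h2 : v = b
  · subst h2
    rw [phi_of_mem (right_mem_segment _ _ _), val_right]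
  obtain ⟨w⟩ := T.isTree.1.preconnected v a
  cases w with
  | nil => exact absurd rfl h1
  | cons h w =>
    refine phi_other hab h ?_ (left_mem_segment _ _ _)
    intro h3
    rcases Sym2.eq_iff.1 h3 with ⟨h4, -⟩ | ⟨h4, -⟩
    · exact h1 h4
    · exact h2 h4

theorem compat_vertex {a b c e : Fin T.n} (hab : T.graph.Adj a b) (hce : T.graph.Adj c e)
    (hne : s(c, e) ≠ s(a, b)) (v : Fin T.n) :
    (T.side a b v ↔ T.side a b c) ∨ (T.side c e v ↔ T.side c e a) := by
  have h := SimpleGraph.reachable_iff_reflTransGen a v |>.1 (T.isTree.1.preconnected a v)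
  induction h with
  | refl => exact Or.inr Iff.rfl
  | @tail x y _ hxy ih =>
    by_cases h1 : s(x, y) = s(a, b)
    · right
      refine side_end hab hne.symm ?_
      rcases Sym2.eq_iff.1 h1 with ⟨-, h⟩ | ⟨-, h⟩
      · exact Or.inr h
      · exact Or.inl h
    by_cases h2 : s(x, y) = s(c, e)
    · left
      refine side_end hce hne ?_
      rcases Sym2.eq_iff.1 h2 with ⟨-, h⟩ | ⟨-, h⟩
      · exact Or.inr h
      · exact Or.inl h
    rw [← side_adj hxy h1, ← side_adj hxy h2]
    exact ih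

theorem compat {a b c e : Fin T.n} (hab : T.graph.Adj a b) (hce : T.graph.Adj c e)
    (hne : s(c, e) ≠ s(a, b)) {p : Plane} (hp : p ∈ T.points) :
    T.phi a b p = T.val a b c ∨ T.phi c e p = T.val c e a := by
  have hv : ∀ v, T.val a b v = T.val a b c ∨ T.val c e v = T.val c e a := fun v =>
    (compat_vertex hab hce hne v).imp val_congr val_congr
  rcases hp with ⟨v, rfl⟩ | ⟨x, y, hxy, hp⟩
  · rw [phi_vertex hab, phi_vertex hce]
    exact hv v
  · by_cases h1 : s(x, y) = s(a, b)
    · right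
      rw [phi_other hce hxy (h1 ▸ hne.symm) hp]
      refine val_congr (side_end hab hne.symm ?_)
      rcases Sym2.eq_iff.1 h1 with ⟨h, -⟩ | ⟨h, -⟩
      · exact Or.inl h
      · exact Or.inr h
    by_cases h2 : s(x, y) = s(c, e)
    · left
      rw [phi_other hab hxy h1 hp]
      refine val_congr (side_end hce hne ?_)
      rcases Sym2.eq_iff.1 h2 with ⟨h, -⟩ | ⟨h, -⟩
      · exact Or.inl h
      · exact Or.inr h
    rw [phi_other hab hxy h1 hp, phi_other hce hxy h2 hp]
    exact hv x

theorem phi_nonneg (a b : Fin T.n) (p : Plane) : 0 ≤ T.phi a b p := by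
  unfold phi
  split_ifs
  · exact dist_nonneg
  · exact dist_nonneg
  · exact le_rfl

theorem phi_le (a b : Fin T.n) (p : Plane) : T.phi a b p ≤ T.len a b := by
  unfold phi
  split_ifs with h
  · have := dist_add_dist_of_mem_segment h
    have h2 : 0 ≤ dist p (T.pos b) := dist_nonneg
    unfold len
    linarith
  · exact le_rfl
  · exact dist_nonneg

variable (T) in
open Classical in
/-- The edges, each listed once. -/
noncomputable def E : Finset (Fin T.n × Fin T.n) :=
  Finset.univ.filter fun e => e.1 < e.2 ∧ T.graph.Adj e.1 e.2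

theorem mem_E {e : Fin T.n × Fin T.n} : e ∈ T.E ↔ e.1 < e.2 ∧ T.graph.Adj e.1 e.2 := by
  simp [E]

theorem E_inj {e e' : Fin T.n × Fin T.n} (he : e ∈ T.E) (he' : e' ∈ T.E)
    (h : s(e.1, e.2) = s(e'.1, e'.2)) : e = e' := by
  rcases Sym2.eq_iff.1 h with ⟨h1, h2⟩ | ⟨h1, h2⟩
  · exact Prod.ext h1 h2
  · have h3 := (mem_E.1 he).1
    have h4 := (mem_E.1 he').1
    rw [h1, h2] at h3
    exact absurd h3 (not_lt.2 h4.le)

theorem exists_E {a b : Fin T.n} (h : T.graph.Adj a b) :
    ∃ e ∈ T.E, T.seg e.1 e.2 = T.seg a b := by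
  rcases lt_or_gt_of_ne h.ne with h' | h'
  · exact ⟨(a, b), mem_E.2 ⟨h', h⟩, rfl⟩
  · exact ⟨(b, a), mem_E.2 ⟨h', h.symm⟩, segment_symm _ _ _⟩

variable (T) in
/-- The explicit formula for the distance along the tree. -/
noncomputable def delta (p q : Plane) : ℝ := ∑ e ∈ T.E, |T.phi e.1 e.2 p - T.phi e.1 e.2 q|

theorem delta_self (p : Plane) : T.delta p p = 0 := by simp [delta]

theorem delta_symm (p q : Plane) : T.delta p q = T.delta q p :=
  Finset.sum_congr rfl fun _ _ => abs_sub_comm _ _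

theorem delta_nonneg (p q : Plane) : 0 ≤ T.delta p q :=
  Finset.sum_nonneg fun _ _ => abs_nonneg _

theorem delta_triangle (p q r : Plane) : T.delta p r ≤ T.delta p q + T.delta q r := by
  unfold delta
  rw [← Finset.sum_add_distrib]
  exact Finset.sum_le_sum fun _ _ => abs_sub_le _ _ _

theorem line_sep {a b c d : ℝ} (h : |a - c| + |b - d| < |a - b| + |c - d|) :
    (a < b ∧ a < d ∧ c < b ∧ c < d) ∨ (b < a ∧ d < a ∧ b < c ∧ d < c) := by
  rcases abs_cases (a - c) with ⟨h1, _⟩ | ⟨h1, _⟩ <;>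
  rcases abs_cases (b - d) with ⟨h2, _⟩ | ⟨h2, _⟩ <;>
  rcases abs_cases (a - b) with ⟨h3, _⟩ | ⟨h3, _⟩ <;>
  rcases abs_cases (c - d) with ⟨h4, _⟩ | ⟨h4, _⟩ <;>
  rw [h1, h2, h3, h4] at h <;>
  first
    | (left; refine ⟨?_, ?_, ?_, ?_⟩ <;> linarith)
    | (right; refine ⟨?_, ?_, ?_, ?_⟩ <;> linarith)

theorem line_sep' {a b c d l σ : ℝ} (h : |a - c| + |b - d| < |a - b| + |c - d|)
    (ha : 0 ≤ a ∧ a ≤ l) (hb : 0 ≤ b ∧ b ≤ l) (hc : 0 ≤ c ∧ c ≤ l) (hd : 0 ≤ d ∧ d ≤ l)
    (hσ : σ = 0 ∨ σ = l) : (a ≠ σ ∧ c ≠ σ) ∨ (b ≠ σ ∧ d ≠ σ) := by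
  obtain ⟨_, _⟩ := ha
  obtain ⟨_, _⟩ := hb
  obtain ⟨_, _⟩ := hc
  obtain ⟨_, _⟩ := hd
  rcases line_sep h with ⟨_, _, _, _⟩ | ⟨_, _, _, _⟩ <;> rcases hσ with rfl | rfl
  · right; constructor <;> intro h <;> linarith
  · left; constructor <;> intro h <;> linarith
  · left; constructor <;> intro h <;> linarith
  · right; constructor <;> intro h <;> linarith

theorem delta_four {p q r s : Plane} (hp : p ∈ T.points) (hq : q ∈ T.points) (hr : r ∈ T.points)
    (hs : s ∈ T.points) :
    T.delta p q + T.delta r s ≤ max (T.delta p r + T.delta q s) (T.delta p s + T.delta q r) := by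
  by_contra hc
  rw [not_le, max_lt_iff] at hc
  obtain ⟨h1, h2⟩ := hc
  unfold delta at h1 h2
  rw [← Finset.sum_add_distrib, ← Finset.sum_add_distrib] at h1 h2
  obtain ⟨e, he, h1⟩ := Finset.exists_lt_of_sum_lt h1
  obtain ⟨e', he', h2⟩ := Finset.exists_lt_of_sum_lt h2
  rw [abs_sub_comm (T.phi e'.1 e'.2 r) (T.phi e'.1 e'.2 s)] at h2
  by_cases hee : e = e'
  · subst hee
    rcases line_sep h1 with ⟨_, _, _, _⟩ | ⟨_, _, _, _⟩ <;>
    rcases line_sep h2 with ⟨_, _, _, _⟩ | ⟨_, _, _, _⟩ <;> linarith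
  · have hne : s(e'.1, e'.2) ≠ s(e.1, e.2) := fun h => hee (E_inj he' he h).symm
    have hb : ∀ (e : Fin T.n × Fin T.n) (z : Plane),
        0 ≤ T.phi e.1 e.2 z ∧ T.phi e.1 e.2 z ≤ T.len e.1 e.2 := fun e z =>
      ⟨phi_nonneg _ _ _, phi_le _ _ _⟩
    have hcp : ∀ z ∈ T.points, T.phi e.1 e.2 z = T.val e.1 e.2 e'.1 ∨
        T.phi e'.1 e'.2 z = T.val e'.1 e'.2 e.1 := fun z hz =>
      compat (mem_E.1 he).2 (mem_E.1 he').2 hne hz
    rcases line_sep' h1 (hb _ _) (hb _ _) (hb _ _) (hb _ _) (val_cases e.1 e.2 e'.1) with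
      ⟨a1, a2⟩ | ⟨a1, a2⟩ <;>
    rcases line_sep' h2 (hb _ _) (hb _ _) (hb _ _) (hb _ _) (val_cases e'.1 e'.2 e.1) with
      ⟨b1, b2⟩ | ⟨b1, b2⟩
    · exact (hcp p hp).elim a1 b1
    · exact (hcp r hr).elim a2 b2
    · exact (hcp s hs).elim a2 b2
    · exact (hcp q hq).elim a1 b1

theorem delta_step {a b : Fin T.n} (hab : T.graph.Adj a b) {p q : Plane} (hp : p ∈ T.seg a b)
    (hq : q ∈ T.seg a b) : T.delta p q = dist p q := by
  obtain ⟨e, he, hseg⟩ := exists_E hab
  rw [← hseg] at hp hq
  unfold delta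
  rw [Finset.sum_eq_single_of_mem e he]
  · rw [phi_of_mem hp, phi_of_mem hq]
    rw [seg, segment_eq_image_lineMap] at hp hq
    obtain ⟨x, hx, rfl⟩ := hp
    obtain ⟨y, hy, rfl⟩ := hq
    rw [dist_left_lineMap, dist_left_lineMap, dist_lineMap_lineMap, Real.norm_of_nonneg hx.1,
      Real.norm_of_nonneg hy.1, ← sub_mul, abs_mul, Real.dist_eq, abs_of_nonneg dist_nonneg]
  · intro e' he' hne
    have hne' : s(e.1, e.2) ≠ s(e'.1, e'.2) := fun h => hne (E_inj he he' h).symm
    rw [phi_other (mem_E.1 he').2 (mem_E.1 he).2 hne' hp,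
      phi_other (mem_E.1 he').2 (mem_E.1 he).2 hne' hq, sub_self, abs_zero]

theorem Route.delta_le {p q : Plane} {L : ℝ} (h : T.Route p q L) : T.delta p q ≤ L := by
  induction h with
  | stay p => exact (delta_self p).le
  | @step p q r L a b hab hp hq _ ih =>
    have := delta_triangle (T := T) p q r
    rw [delta_step hab hp hq] at this
    linarith

theorem Route.trans {p q r : Plane} {L M : ℝ} (h : T.Route p q L) (h' : T.Route q r M) :
    T.Route p r (L + M) := by
  induction h with
  | stay p => simpa using h'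
  | step a b hab hp hq _ ih =>
    rw [add_assoc]
    exact Route.step a b hab hp hq (ih h')

theorem Route.single {a b : Fin T.n} (hab : T.graph.Adj a b) {p q : Plane} (hp : p ∈ T.seg a b)
    (hq : q ∈ T.seg a b) : T.Route p q (dist p q) := by
  simpa using Route.step a b hab hp hq (Route.stay q)

theorem Route.symm {p q : Plane} {L : ℝ} (h : T.Route p q L) : T.Route q p L := by
  induction h with
  | stay p => exact Route.stay p
  | @step p q r L a b hab hp hq _ ih =>
    rw [add_comm, dist_comm]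
    exact ih.trans (Route.single hab hq hp)

theorem delta_between {p m q : Plane}
    (h : ∀ e ∈ T.E, T.phi e.1 e.2 m = T.phi e.1 e.2 p ∨ T.phi e.1 e.2 m = T.phi e.1 e.2 q) :
    T.delta p q = T.delta p m + T.delta m q := by
  unfold delta
  rw [← Finset.sum_add_distrib]
  refine Finset.sum_congr rfl fun e he => ?_
  rcases h e he with h | h <;> rw [h] <;> simp

theorem side_walk {a b u v : Fin T.n} (w : T.graph.Walk u v) (hw : s(a, b) ∉ w.edges) :
    T.side a b u ↔ T.side a b v := by
  induction w with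
  | nil => rfl
  | cons h w ih =>
    rw [SimpleGraph.Walk.edges_cons, List.mem_cons, not_or] at hw
    exact (side_adj h fun h' => hw.1 h'.symm).trans (ih hw.2)

theorem route_walk {u v : Fin T.n} (w : T.graph.Walk u v) (hw : w.edges.Nodup) :
    T.Route (T.pos u) (T.pos v) (T.delta (T.pos u) (T.pos v)) := by
  induction w with
  | nil => rw [delta_self]; exact Route.stay _
  | @cons u x v h w ih =>
    rw [SimpleGraph.Walk.edges_cons, List.nodup_cons] at hw
    rw [delta_between (m := T.pos x), delta_step h (left_mem_segment _ _ _) (right_mem_segment _ _ _)]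
    · exact (Route.single h (left_mem_segment _ _ _) (right_mem_segment _ _ _)).trans (ih hw.2)
    · intro e he
      have hadj := (mem_E.1 he).2
      rw [phi_vertex hadj, phi_vertex hadj, phi_vertex hadj]
      by_cases h1 : s(u, x) = s(e.1, e.2)
      · exact Or.inr (val_congr (side_walk w (h1 ▸ hw.1)))
      · exact Or.inl (val_congr (side_adj h h1).symm)

theorem route_vertex (u v : Fin T.n) :
    T.Route (T.pos u) (T.pos v) (T.delta (T.pos u) (T.pos v)) := by
  obtain ⟨w, hw⟩ := (T.isTree.1.preconnected u v).exists_isPath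
  exact route_walk w hw.isTrail.edges_nodup

theorem route_to_end {e : Fin T.n × Fin T.n} (he : e ∈ T.E) {p z : Plane} (hp : p ∈ T.seg e.1 e.2)
    (hz : T.phi e.1 e.2 z = 0 ∨ T.phi e.1 e.2 z = T.len e.1 e.2) :
    ∃ x, T.Route p (T.pos x) (T.delta p (T.pos x)) ∧
      T.delta p z = T.delta p (T.pos x) + T.delta (T.pos x) z := by
  have hadj := (mem_E.1 he).2
  have key : ∀ x, T.pos x ∈ T.seg e.1 e.2 → T.phi e.1 e.2 (T.pos x) = T.phi e.1 e.2 z →
      T.Route p (T.pos x) (T.delta p (T.pos x)) ∧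
      T.delta p z = T.delta p (T.pos x) + T.delta (T.pos x) z := by
    intro x hx hxz
    refine ⟨?_, delta_between fun e' he' => ?_⟩
    · rw [delta_step hadj hp hx]
      exact Route.single hadj hp hx
    · by_cases hee : e' = e
      · subst hee
        exact Or.inr hxz
      · have hne' : s(e.1, e.2) ≠ s(e'.1, e'.2) := fun h => hee (E_inj he he' h).symm
        left
        rw [phi_other (mem_E.1 he').2 hadj hne' hp, phi_other (mem_E.1 he').2 hadj hne' hx]
  rcases hz with hz | hz
  · exact ⟨e.1, key e.1 (left_mem_segment _ _ _) (by rw [hz, phi_vertex hadj, val_left hadj])⟩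
  · exact ⟨e.2, key e.2 (right_mem_segment _ _ _) (by rw [hz, phi_vertex hadj, val_right])⟩

theorem points_cases {p : Plane} (hp : p ∈ T.points) :
    (∃ v, p = T.pos v) ∨ ∃ e ∈ T.E, p ∈ T.seg e.1 e.2 := by
  rcases hp with ⟨v, rfl⟩ | ⟨a, b, hab, hp⟩
  · exact Or.inl ⟨v, rfl⟩
  · obtain ⟨e, he, hseg⟩ := exists_E hab
    exact Or.inr ⟨e, he, hseg ▸ hp⟩

theorem route_point_vertex {p : Plane} (hp : p ∈ T.points) (v : Fin T.n) :
    T.Route p (T.pos v) (T.delta p (T.pos v)) := by
  rcases points_cases hp with ⟨u, rfl⟩ | ⟨e, he, hp⟩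
  · exact route_vertex u v
  · obtain ⟨x, h1, h2⟩ := route_to_end (z := T.pos v) he hp
      (by rw [phi_vertex (mem_E.1 he).2]; exact val_cases _ _ _)
    rw [h2]
    exact h1.trans (route_vertex x v)

theorem route_exact {p q : Plane} (hp : p ∈ T.points) (hq : q ∈ T.points) :
    T.Route p q (T.delta p q) := by
  rcases points_cases hq with ⟨v, rfl⟩ | ⟨e', he', hq'⟩
  · exact route_point_vertex hp v
  rcases points_cases hp with ⟨u, rfl⟩ | ⟨e, he, hp'⟩
  · rw [delta_symm]
    exact (route_point_vertex hq u).symm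
  by_cases hee : e = e'
  · subst hee
    rw [delta_step (mem_E.1 he).2 hp' hq']
    exact Route.single (mem_E.1 he).2 hp' hq'
  · have hne' : s(e'.1, e'.2) ≠ s(e.1, e.2) := fun h => hee (E_inj he' he h).symm
    obtain ⟨x, h1, h2⟩ := route_to_end (z := q) he hp'
      (by rw [phi_other (mem_E.1 he).2 (mem_E.1 he').2 hne' hq']; exact val_cases _ _ _)
    rw [h2, delta_symm (T.pos x) q]
    exact h1.trans (route_point_vertex hq x).symm

theorem d_eq {p q : Plane} (hp : p ∈ T.points) (hq : q ∈ T.points) : T.d p q = T.delta p q :=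
  IsLeast.csInf_eq ⟨route_exact hp hq, fun _ h => Route.delta_le h⟩

theorem Route.split {p q : Plane} {L : ℝ} (h : T.Route p q L) (hp : p ∈ T.points) :
    ∀ l, 0 ≤ l → l ≤ L → ∃ m ∈ T.points, T.Route p m l ∧ T.Route m q (L - l) := by
  induction h with
  | stay p =>
    intro l h0 h1
    have : l = 0 := le_antisymm h1 h0
    subst this
    exact ⟨p, hp, Route.stay p, by simpa using Route.stay p⟩
  | @step p q r L a b hab hp' hq' hr ih =>
    intro l h0 h1
    by_cases hl : dist p q ≤ l
    · obtain ⟨m, hm, r1, r2⟩ := ih (Or.inr ⟨a, b, hab, hq'⟩) (l - dist p q) (by linarith)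
        (by linarith)
      refine ⟨m, hm, ?_, ?_⟩
      · have := Route.step a b hab hp' hq' r1
        rwa [add_sub_cancel] at this
      · convert r2 using 1
        ring
    · rw [not_le] at hl
      have hpos : 0 < dist p q := lt_of_le_of_lt h0 hl
      have ht : l / dist p q ∈ Icc (0 : ℝ) 1 :=
        ⟨div_nonneg h0 hpos.le, (div_le_one hpos).2 hl.le⟩
      have hm : AffineMap.lineMap p q (l / dist p q) ∈ T.seg a b :=
        (convex_segment _ _).lineMap_mem hp' hq' ht
      refine ⟨AffineMap.lineMap p q (l / dist p q), Or.inr ⟨a, b, hab, hm⟩, ?_, ?_⟩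
      · have := Route.single hab hp' hm
        rwa [dist_left_lineMap, Real.norm_of_nonneg ht.1, div_mul_cancel₀ _ hpos.ne'] at this
      · have := Route.step a b hab hm hq' hr
        rw [dist_lineMap_right, Real.norm_of_nonneg (sub_nonneg.2 ht.2), sub_mul,
          div_mul_cancel₀ _ hpos.ne'] at this
        convert this using 1
        ring

theorem delta_geodesic {p q : Plane} (hp : p ∈ T.points) (hq : q ∈ T.points) (l : ℝ) (h0 : 0 ≤ l)
    (h1 : l ≤ T.delta p q) :
    ∃ m ∈ T.points, T.delta p m = l ∧ T.delta m q = T.delta p q - l := by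
  obtain ⟨m, hm, r1, r2⟩ := (route_exact hp hq).split hp l h0 h1
  have a1 := r1.delta_le
  have a2 := r2.delta_le
  have a3 := delta_triangle (T := T) p m q
  exact ⟨m, hm, by linarith, by linarith⟩

theorem isCompact_seg (a b : Fin T.n) : IsCompact (T.seg a b) := by
  rw [seg, segment_eq_image_lineMap]
  exact isCompact_Icc.image AffineMap.lineMap_continuous

theorem points_eq : T.points = ⋃ i : Fin T.n ⊕ T.E,
    Sum.elim (fun v => ({T.pos v} : Set Plane)) (fun e => T.seg e.1.1 e.1.2) i := by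
  ext p
  rw [mem_iUnion]
  constructor
  · intro hp
    rcases points_cases hp with ⟨v, rfl⟩ | ⟨e, he, hp⟩
    · exact ⟨Sum.inl v, rfl⟩
    · exact ⟨Sum.inr ⟨e, he⟩, hp⟩
  · rintro ⟨v | e, hp⟩
    · exact Or.inl ⟨v, hp.symm⟩
    · exact Or.inr ⟨_, _, (mem_E.1 e.2).2, hp⟩

theorem isCompact_points : IsCompact T.points := by
  rw [points_eq]
  refine isCompact_iUnion ?_
  rintro (v | e)
  · exact isCompact_singleton
  · exact isCompact_seg _ _

theorem continuousOn_phi {e : Fin T.n × Fin T.n} (he : e ∈ T.E) :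
    ContinuousOn (T.phi e.1 e.2) T.points := by
  rw [points_eq]
  refine (locallyFinite_of_finite _).continuousOn_iUnion ?_ ?_
  · rintro (v | e')
    · exact isClosed_singleton
    · exact (isCompact_seg _ _).isClosed
  · rintro (v | e')
    · exact continuousOn_singleton _ _
    · by_cases hee : e'.1 = e
      · refine ContinuousOn.congr (f := fun p => dist (T.pos e.1) p) (by fun_prop) ?_
        intro p hp
        exact phi_of_mem (hee ▸ hp)
      · refine ContinuousOn.congr (f := fun _ => T.val e.1 e.2 e'.1.1) continuousOn_const ?_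
        intro p hp
        exact phi_other (mem_E.1 he).2 (mem_E.1 e'.2).2 (fun h => hee (E_inj e'.2 he h)) hp

theorem continuousOn_delta :
    ContinuousOn (fun z : Plane × Plane => T.delta z.1 z.2) (T.points ×ˢ T.points) := by
  unfold delta
  refine continuousOn_finsetSum _ fun e he => ?_
  have h1 : ContinuousOn (fun z : Plane × Plane => T.phi e.1 e.2 z.1) (T.points ×ˢ T.points) :=
    (continuousOn_phi he).comp continuousOn_fst fun z hz => hz.1
  have h2 : ContinuousOn (fun z : Plane × Plane => T.phi e.1 e.2 z.2) (T.points ×ˢ T.points) :=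
    (continuousOn_phi he).comp continuousOn_snd fun z hz => hz.2
  exact (h1.sub h2).abs

theorem mem_nbhd {c p : Plane} (hc : c ∈ T.points) {r : ℝ} :
    p ∈ T.nbhd c r ↔ p ∈ T.points ∧ T.delta c p ≤ r := by
  refine and_congr_right fun hp => ?_
  rw [d_eq hc hp]

theorem exists_diameter {c : Plane} (hc : c ∈ T.points) {r : ℝ} (hr : 0 ≤ r) :
    ∃ u ∈ T.nbhd c r, ∃ u' ∈ T.nbhd c r, ∀ a ∈ T.nbhd c r, ∀ b ∈ T.nbhd c r,
      T.delta a b ≤ T.delta u u' := by
  have hcont : ContinuousOn (fun p => T.delta c p) T.points :=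
    continuousOn_delta.comp (f := fun p => (c, p)) (by fun_prop) fun p hp => ⟨hc, hp⟩
  have hS : T.nbhd c r = T.points ∩ (fun p => T.delta c p) ⁻¹' Iic r := by
    ext p
    rw [mem_nbhd hc]
    rfl
  have hcl : IsClosed (T.nbhd c r) := by
    rw [hS]
    exact hcont.preimage_isClosed_of_isClosed isCompact_points.isClosed isClosed_Iic
  have hsub : T.nbhd c r ⊆ T.points := fun p hp => hp.1
  have hK : IsCompact (T.nbhd c r) := isCompact_points.of_isClosed_subset hcl hsub
  have hne : (T.nbhd c r).Nonempty := ⟨c, (mem_nbhd hc).2 ⟨hc, by rw [delta_self]; exact hr⟩⟩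
  obtain ⟨z, hz, hmax⟩ := (hK.prod hK).exists_isMaxOn (hne.prod hne)
    (continuousOn_delta.mono (prod_mono hsub hsub))
  exact ⟨z.1, hz.1, z.2, hz.2, fun a ha b hb => hmax (show (a, b) ∈ _ from ⟨ha, hb⟩)⟩

end EmbeddedTree

end Pool.Agent.MP_64e20d_co
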